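import Pool.Agent.VLF.Stmts

/-!
# Squad VLF, row SAT
-/

set_option autoImplicit false

namespace Pool.Agent.VLF.H38

open Pool.Agent.VLF Pool.Agent.ZOL Finset

/-- the integer linear extension of the standard representative -/
theorem ext_val (q : ℕ) (v : ZK →+ ZMod q) : ∃ V : ZK →+ ℤ,
    ∀ K : Knot, V (Finsupp.single K 1) = ((v (Finsupp.single K 1)).val : ℤ) := by
  refine ⟨Finsupp.liftAddHom (fun K : Knot =>
    AddMonoidHom.mulRight ((v (Finsupp.single K 1)).val : ℤ)), fun K => ?_⟩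
  rw [Finsupp.liftAddHom_apply_single]
  simp

theorem cast_eq (q : ℕ) [NeZero q] (v : ZK →+ ZMod q) (V : ZK →+ ℤ)
    (hV : ∀ K : Knot, V (Finsupp.single K 1) = ((v (Finsupp.single K 1)).val : ℤ)) (x : ZK) :
    (V x : ZMod q) = v x := by
  have h : (Int.castAddHom (ZMod q)).comp V = v := by
    refine Finsupp.addHom_ext fun K n => ?_
    have h1 : (Finsupp.single K n : ZK) = n • Finsupp.single K 1 := by
      rw [Finsupp.smul_single, smul_eq_mul, mul_one]
    rw [h1, map_zsmul, map_zsmul]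
    congr 1
    show ((V (Finsupp.single K 1) : ℤ) : ZMod q) = _
    rw [hV]
    simp
  exact DFunLike.congr_fun h x

theorem sat (h1 : TypStmt) (h2 : DuaStmt) : SatStmt := by
  intro p k a d hp hk x y hxy
  have hpp : 0 < p := hp.pos
  have : NeZero (p ^ k) := ⟨(pow_pos hpp k).ne'⟩
  have h3 : ∀ φ : ZK →+ ZMod (p ^ k), (∀ z ∈ F (d + 1), φ z = 0) → φ x = 0 := by
    intro v hv
    obtain ⟨V, hV⟩ := ext_val (p ^ k) v
    have h4 := h1 p k a d hp hk v hv V hV _ hxy
    rw [map_add, map_nsmul, map_nsmul, nsmul_eq_mul, nsmul_eq_mul] at h4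
    have h5 : ((p : ℤ) ^ (k + a)) ∣ ((p ^ (k + a) : ℕ) : ℤ) * V y := by
      push_cast
      exact Dvd.intro _ rfl
    have h6 : ((p : ℤ) ^ (k + a)) ∣ ((p ^ a : ℕ) : ℤ) * V x := (dvd_add_left h5).1 h4
    have h7 : ((p : ℤ) ^ k) ∣ V x := by
      rw [pow_add, mul_comm ((p : ℤ) ^ k)] at h6
      push_cast at h6
      exact (mul_dvd_mul_iff_left (pow_ne_zero a (by exact_mod_cast hpp.ne'))).1 h6
    rw [← cast_eq (p ^ k) v V hV x]
    rw [ZMod.intCast_zmod_eq_zero_iff_dvd]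
    push_cast
    exact h7
  obtain ⟨g, hg, z, hz⟩ := h2 ZK (F (d + 1)) (p ^ k) (pow_pos hpp k) x h3
  refine ⟨-z, ?_⟩
  have h8 : x + (p ^ k) • (-z) = g := by
    rw [hz, smul_neg]
    abel
  rw [h8]
  exact hg

end Pool.Agent.VLF.H38
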